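import Pool.Agent.K3h27.PP.Stm

/-! PP project (helper27): brick EDGE. -/

set_option autoImplicit false

open Finset

namespace Pool.Agent.K3h60.PP

open Pool.Agent.K3h27.PP

theorem mem_E2 {V : Type} (G : SimpleGraph V) (W : Finset V) (p : V × V) :
    p ∈ E2 G W ↔ p.1 ∈ W ∧ p.2 ∈ W ∧ G.Adj p.1 p.2 := by
  classical
  unfold E2
  rw [Finset.mem_filter, Finset.mem_product]
  tauto

theorem mem_nb {V : Type} (G : SimpleGraph V) (W : Finset V) (v u : V) :
    u ∈ nb G W v ↔ u ∈ W ∧ G.Adj v u := by
  classical
  unfold nb
  rw [Finset.mem_filter]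

theorem t_EDGE (h : S_MIN3) : S_EDGE := by
  classical
  intro V G hG
  suffices H : ∀ n : ℕ, ∀ W : Finset V, W.card = n → (E2 G W).card ≤ 4 * W.card from
    fun W => H _ W rfl
  intro n
  induction n using Nat.strong_induction_on with
  | _ n ih =>
    intro W hW
    rcases W.eq_empty_or_nonempty with rfl | hne
    · have : E2 G (∅ : Finset V) = ∅ := by
        apply Finset.eq_empty_of_forall_notMem
        intro p hp
        exact absurd ((mem_E2 G ∅ p).1 hp).1 (Finset.notMem_empty _)
      rw [this]
      simp
    by_cases hdeg : ∀ v ∈ W, 3 ≤ (nb G W v).card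
    · rcases h V G hG W hne hdeg with ⟨Q, hQW, hQ5, hQ⟩ | ⟨a, b, c, d, ha, hb, hc, hd, hnd, -, -, -, -, -, -, habc⟩
      · -- an isolated set of five vertices
        have hsub : E2 G W ⊆ Q.offDiag ∪ E2 G (W \ Q) := by
          intro p hp
          rw [mem_E2] at hp
          rw [Finset.mem_union, Finset.mem_offDiag, mem_E2, Finset.mem_sdiff, Finset.mem_sdiff]
          by_cases h1 : p.1 ∈ Q
          · exact Or.inl ⟨h1, hQ _ h1 _ hp.2.1 hp.2.2, hp.2.2.ne⟩
          · refine Or.inr ⟨⟨hp.1, h1⟩, ⟨hp.2.1, fun h2 => h1 (hQ _ h2 _ hp.1 hp.2.2.symm)⟩, hp.2.2⟩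
        have hc1 := (Finset.card_le_card hsub).trans (Finset.card_union_le _ _)
        rw [Finset.offDiag_card, hQ5] at hc1
        have hc2 := Finset.card_sdiff_of_subset hQW
        have hc3 := Finset.card_le_card hQW
        have hc4 := ih (W \ Q).card (by omega) (W \ Q) rfl
        omega
      · -- a pendant complete graph
        have hsub : E2 G W ⊆ ([(a,b),(a,c),(a,d),(b,a),(b,c),(b,d),(c,a),(c,b),(c,d),(d,a),(d,b),
            (d,c)] : List (V × V)).toFinset ∪ E2 G (W \ {a, b, c}) := by
          rintro ⟨x, y⟩ hp
          rw [mem_E2] at hp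
          obtain ⟨hx, hy, hxy⟩ := hp
          simp only at hx hy hxy
          have hne := hxy.ne
          rw [Finset.mem_union, mem_E2, Finset.mem_sdiff, Finset.mem_sdiff]
          by_cases h1 : x ∈ ({a, b, c} : Finset V)
          · left
            simp only [Finset.mem_insert, Finset.mem_singleton] at h1
            rcases h1 with rfl | rfl | rfl
            · rcases habc y hy (by tauto) with rfl | rfl | rfl | rfl <;> first | (exact absurd rfl hne) | simp
            · rcases habc y hy (by tauto) with rfl | rfl | rfl | rfl <;> first | (exact absurd rfl hne) | simp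
            · rcases habc y hy (by tauto) with rfl | rfl | rfl | rfl <;> first | (exact absurd rfl hne) | simp
          · by_cases h2 : y ∈ ({a, b, c} : Finset V)
            · left
              have hyx := hxy.symm
              simp only [Finset.mem_insert, Finset.mem_singleton] at h2
              rcases h2 with rfl | rfl | rfl
              · rcases habc x hx (by tauto) with rfl | rfl | rfl | rfl <;> first | (exact absurd rfl hne) | simp
              · rcases habc x hx (by tauto) with rfl | rfl | rfl | rfl <;> first | (exact absurd rfl hne) | simp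
              · rcases habc x hx (by tauto) with rfl | rfl | rfl | rfl <;> first | (exact absurd rfl hne) | simp
            · right
              exact ⟨⟨hx, h1⟩, ⟨hy, h2⟩, hxy⟩
        have hc1 := (Finset.card_le_card hsub).trans (Finset.card_union_le _ _)
        have hc0 := List.toFinset_card_le ([(a,b),(a,c),(a,d),(b,a),(b,c),(b,d),(c,a),(c,b),(c,d),
          (d,a),(d,b),(d,c)] : List (V × V))
        simp only [List.length_cons, List.length_nil] at hc0
        have h3 : ({a, b, c} : Finset V).card = 3 := by
          rw [Finset.card_eq_three]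
          simp only [List.nodup_cons, List.mem_cons, List.not_mem_nil, or_false, not_or] at hnd
          exact ⟨a, b, c, hnd.1.1, hnd.1.2.1, hnd.2.1.1, rfl⟩
        have hsub3 : ({a, b, c} : Finset V) ⊆ W := by
          intro x hx
          simp only [Finset.mem_insert, Finset.mem_singleton] at hx
          rcases hx with rfl | rfl | rfl <;> assumption
        have hc2 := Finset.card_sdiff_of_subset hsub3
        have hc3 := Finset.card_le_card hsub3
        have hc4 := ih (W \ {a, b, c}).card (by omega) (W \ {a, b, c}) rfl
        omega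
    · push Not at hdeg
      obtain ⟨v, hv, hv2⟩ := hdeg
      have hsub : E2 G W ⊆ E2 G (W.erase v) ∪ ((nb G W v).image (fun u => (v, u)) ∪
          (nb G W v).image (fun u => (u, v))) := by
        rintro ⟨x, y⟩ hp
        rw [mem_E2] at hp
        obtain ⟨hx, hy, hxy⟩ := hp
        simp only at hx hy hxy
        rw [Finset.mem_union, Finset.mem_union, mem_E2, Finset.mem_erase, Finset.mem_erase,
          Finset.mem_image, Finset.mem_image]
        by_cases h1 : x = v
        · subst h1
          exact Or.inr (Or.inl ⟨y, (mem_nb G W x y).2 ⟨hy, hxy⟩, rfl⟩)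
        · by_cases h2 : y = v
          · subst h2
            exact Or.inr (Or.inr ⟨x, (mem_nb G W y x).2 ⟨hx, hxy.symm⟩, rfl⟩)
          · exact Or.inl ⟨⟨h1, hx⟩, ⟨h2, hy⟩, hxy⟩
      have hc1 := (Finset.card_le_card hsub).trans (Finset.card_union_le _ _)
      have hc2 := Finset.card_union_le ((nb G W v).image (fun u => (v, u)))
        ((nb G W v).image (fun u => (u, v)))
      have hc3 := Finset.card_image_le (s := nb G W v) (f := fun u => (v, u))
      have hc4 := Finset.card_image_le (s := nb G W v) (f := fun u => (u, v))
      have hc5 := Finset.card_erase_of_mem hv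
      have hpos := Finset.card_pos.2 ⟨v, hv⟩
      have hc6 := ih (W.erase v).card (by omega) (W.erase v) rfl
      omega

end Pool.Agent.K3h60.PP
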