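import Pool.Agent.K3h27.PP.Stm

/-! PP project (helper27): brick SMALL. -/

set_option autoImplicit false

open Finset

namespace Pool.Agent.K3h60.PP

open Pool.Agent.K3h27.PP

theorem mem_P6 {V : Type} (G : SimpleGraph V) (W : Finset V) (a b c d e f : V) :
    (a, b, c, d, e, f) ∈ P6 G W ↔ (a ∈ W ∧ b ∈ W ∧ c ∈ W ∧ d ∈ W ∧ e ∈ W ∧ f ∈ W) ∧
      [a, b, c, d, e, f].Nodup ∧ G.Adj a b ∧ G.Adj b c ∧ G.Adj c d ∧ G.Adj d e ∧ G.Adj e f := by
  classical
  unfold P6
  rw [Finset.mem_filter]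
  simp only [Finset.mem_product]

theorem t_SMALL (h : S_SIX) : S_SMALL := by
  classical
  intro V G hG W _
  have hsub : P6 G W ⊆ (W.powersetCard 6).biUnion fun S => P6 G S := by
    rintro ⟨a, b, c, d, e, f⟩ hp
    rw [mem_P6] at hp
    obtain ⟨⟨ha, hb, hc, hd, he, hf⟩, hnd, hadj⟩ := hp
    rw [Finset.mem_biUnion]
    refine ⟨[a, b, c, d, e, f].toFinset, ?_, ?_⟩
    · rw [Finset.mem_powersetCard]
      refine ⟨?_, by rw [List.toFinset_card_of_nodup hnd]; rfl⟩
      intro x hx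
      rw [List.mem_toFinset] at hx
      simp only [List.mem_cons, List.not_mem_nil, or_false] at hx
      rcases hx with rfl | rfl | rfl | rfl | rfl | rfl <;> assumption
    · rw [mem_P6]
      refine ⟨⟨?_, ?_, ?_, ?_, ?_, ?_⟩, hnd, hadj⟩ <;> simp
  refine (Finset.card_le_card hsub).trans ?_
  have h1 := Finset.card_biUnion_le_card_mul (W.powersetCard 6) (fun S => P6 G S) 48 (by
    intro S hS
    exact h V G hG S (Finset.mem_powersetCard.1 hS).2)
  rw [Finset.card_powersetCard] at h1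
  rw [mul_comm]
  exact h1

end Pool.Agent.K3h60.PP
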